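import Pool.Agent.Run7.h481.Tr
import Pool.Agent.Run7.h481.Lower
import Pool.Agent.Run7.h481.U9

open Run7.h481.Setting in
/-- The order of the best `m`-term trigonometric approximation in `L_p` of the Nikol'skii classes
of mixed smoothness `H^r_q`: for `1 < p < q ≤ 2` it is `m^{-r} (log m)^{(d-1)(r+1/q)}`. The upper
bound is proved for `p = 1` also. -/
theorem Pool.Agent.Results.MP_c90581_an.NikolskiiOrder.result
    (d : ℕ) (hd : 1 ≤ d) (p q r : ℝ) (hp : 1 ≤ p) (hpq : p < q) (hq : q ≤ 2) (hr : 0 < r) :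
    (∃ C : ℝ, 0 < C ∧ ∀ m : ℕ, 2 ≤ m →
      sigmaClass m p (classH d r q) ≤
        ENNReal.ofReal (C * ((m : ℝ) ^ (-r) * Real.log m ^ (((d : ℝ) - 1) * (r + 1 / q))))) ∧
    (1 < p → ∃ c : ℝ, 0 < c ∧ ∀ m : ℕ, 2 ≤ m →
      ENNReal.ofReal (c * ((m : ℝ) ^ (-r) * Real.log m ^ (((d : ℝ) - 1) * (r + 1 / q)))) ≤
        sigmaClass m p (classH d r q)) := by
  obtain ⟨e, rfl⟩ := Nat.exists_eq_add_of_le' hd
  have hcast : ((e + 1 : ℕ) : ℝ) - 1 = e := by push_cast; ring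
  rw [hcast]
  refine ⟨?_, fun hp1 => ?_⟩
  · obtain ⟨C, hC, h⟩ := Run7.h481.upper_H e hp hpq hq hr
    refine ⟨C, hC, fun m hm => ?_⟩
    rw [Run7.h481.sigmaClass_H, ← mul_assoc]
    exact h m hm
  · obtain ⟨c, hc, h⟩ := Run7.h481.lower_H e hp1 (by linarith : (1 : ℝ) ≤ q) hq hr
    refine ⟨c, hc, fun m hm => ?_⟩
    rw [Run7.h481.sigmaClass_H, ← mul_assoc]
    exact h m hm
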